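import Mathlib

set_option autoImplicit false

namespace Pool.Agent.H.MP_2f19c2_an

open Set Filter Topology
open scoped ENNReal

variable {X Y : Type} [NormedAddCommGroup X] [NormedSpace ℝ X] [NormedAddCommGroup Y]
  [NormedSpace ℝ Y]

def WCauchy (x : ℕ → X) : Prop := ∀ φ : StrongDual ℝ X, CauchySeq fun k => φ (x k)

def RDPP (X : Type) [NormedAddCommGroup X] [NormedSpace ℝ X] : Prop :=
  ∀ (E : Type) [NormedAddCommGroup E] [NormedSpace ℝ E] [CompleteSpace E] (T : X →L[ℝ] E),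
    (∀ x : ℕ → X, WCauchy x → CauchySeq fun k => T (x k)) →
    IsCompact (closure (toWeakSpace ℝ E '' (T '' Metric.closedBall 0 1)))

noncomputable def emb (y : Y) : WeakDual ℝ (StrongDual ℝ Y) :=
  StrongDual.toWeakDual (NormedSpace.inclusionInDoubleDual ℝ Y y)

noncomputable def distY (z : WeakDual ℝ (StrongDual ℝ Y)) : ℝ≥0∞ :=
  Metric.infEDist (WeakDual.toStrongDual z) (range (NormedSpace.inclusionInDoubleDual ℝ Y))

noncomputable def wk (A : Set Y) : ℝ≥0∞ := ⨆ z ∈ closure (emb '' A), distY z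

noncomputable def ca (y : ℕ → Y) : ℝ≥0∞ := ⨅ n, ⨆ k ≥ n, ⨆ l ≥ n, edist (y k) (y l)

noncomputable def cc (T : X →L[ℝ] Y) : ℝ≥0∞ :=
  ⨆ x ∈ {x : ℕ → X | (∀ k, ‖x k‖ ≤ 1) ∧ WCauchy x}, ca fun k => T (x k)

end Pool.Agent.H.MP_2f19c2_an
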