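import Mathlib
import Pool.Agent.H.MP_2f19c2_an.Defs
import Pool.Agent.H.MP_997199_an.C
import Pool.Agent.H.MP_ca490d_an.A

set_option autoImplicit false

namespace Pool.Agent.H.MP_2f19c2_an

open Set Filter Topology Pool.Agent.H.MP_997199_an
open scoped ENNReal Classical

theorem rdpp' : RDPP XX := by
  intro E _ _ _ T hT
  obtain ⟨W, h1, h2⟩ := rdpp E T fun x y h => by
    obtain ⟨w, hw⟩ := cauchySeq_tendsto_of_complete (hT x fun φ => (h φ).cauchySeq)
    have : w = T y := (SeparatingDual.eq_iff_forall_dual_eq (R := ℝ)).2 fun φ : StrongDual ℝ E =>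
      tendsto_nhds_unique ((φ.continuous.tendsto w).comp hw) (h (φ.comp T))
    exact this ▸ hw
  exact IsCompact.closure_of_subset h1 (image_mono h2)

theorem ev_spl (n : ℕ) {x : XX} (hx : ‖x‖ ≤ 1) (N : ℕ) (ρ σ τ : K) (h : ∀ k < N, σ k = τ k) :
    |ev n x (spl N ρ σ) - ev n x (spl N ρ τ) - (ev n x σ - ev n x τ)| ≤ 8 * al n := by
  obtain ⟨p, h1, h2⟩ := mk_lt n (x n)
  have h3 : ∀ σ, |al n * p.1 σ| ≤ al n * 2 := fun σ => by
    rw [abs_mul, abs_of_pos (al_pos n)]
    refine mul_le_mul_of_nonneg_left ((p.1.norm_coe_le_norm σ).trans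
      ((norm_fst_le p).trans ?_)) (al_pos n).le
    linarith [lp.norm_apply_le_norm (by norm_num) x n]
  have h4 := p.2.2 N ρ σ τ h
  simp only [ev_apply, ← h1, e_mk, ContinuousMap.add_apply, ContinuousMap.smul_apply,
    smul_eq_mul, abs_le] at h3 ⊢
  constructor <;> linarith [h3 σ, h3 τ, h3 (spl N ρ σ), h3 (spl N ρ τ)]

theorem cc_le (n : ℕ) : cc (ev n) ≤ ENNReal.ofReal (33 * al n) := by
  refine iSup₂_le fun x hx => not_lt.1 fun hc => ?_
  simp only [ca, lt_iInf_iff, lt_iSup_iff] at hc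
  obtain ⟨t, h0, hc⟩ := hc
  have h1 : ∀ N, ∃ k ≥ N, ∃ l ≥ N, 33 * al n < ‖ev n (x k) - ev n (x l)‖ := fun N => by
    have := h0.trans_le (hc N)
    simp only [lt_iSup_iff, exists_prop, edist_dist, dist_eq_norm] at this
    obtain ⟨k, h1, l, h2, h3⟩ := this
    exact ⟨k, h1, l, h2, (ENNReal.ofReal_lt_ofReal_iff_of_nonneg (by linarith [al_pos n])).1 h3⟩
  choose k h2 l h3 h4 using h1
  let d : ℕ → CK := fun N => ev n (x (k N)) - ev n (x (l N))
  have hd : ∀ σ, Tendsto (fun N => d N σ) atTop (𝓝 0) := fun σ => by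
    obtain ⟨a, ha⟩ := cauchySeq_tendsto_of_complete (hx.2 (dl n σ))
    have := (ha.comp (tendsto_atTop_mono h2 tendsto_id)).sub
      (ha.comp (tendsto_atTop_mono h3 tendsto_id))
    rw [sub_self] at this
    exact this
  obtain ⟨N, hN⟩ := osc (L := range d) (β := 16 * al n) (fun U g => by
    choose i hi using fun m => (g m).2
    rcases Pool.Agent.H.MP_ca490d_an.uf_dich U i with ⟨m, hm⟩ | hm
    · exact ⟨d m, fun σ => tendsto_const_nhds.congr' (hm.mono fun a ha => by simp [← hi, ha])⟩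
    · exact ⟨0, fun σ => by simp only [← hi]; exact (hd σ).comp (tendsto_atTop.2 hm)⟩)
    (by linarith [al_pos n]) (by
      rintro _ ⟨m, rfl⟩ N ρ σ τ h
      have a1 := abs_le.1 (ev_spl n (hx.1 (k m)) N ρ σ τ h)
      have a2 := abs_le.1 (ev_spl n (hx.1 (l m)) N ρ σ τ h)
      simp only [d, ContinuousMap.sub_apply, abs_le]
      constructor <;> linarith)
  obtain ⟨m, hm⟩ := (eventually_all.2 fun s : Fin N → Bool => Metric.tendsto_nhds.1
    (hd fun k => if h : k < N then s ⟨k, h⟩ else true) _ (al_pos n)).exists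
  refine absurd (h4 m) (not_lt.2 ((ContinuousMap.norm_le _ (by linarith [al_pos n])).2 fun σ => ?_))
  have a1 := hN _ ⟨m, rfl⟩ σ (fun k => if h : k < N then σ k else true) fun k hk => by simp [hk]
  have a2 := hm fun k => σ k
  rw [dist_zero_right, Real.norm_eq_abs] at a2
  change |d m σ| ≤ _
  linarith [abs_sub_abs_le_abs_sub (d m σ) (d m fun k => if h : k < N then σ k else true)]

theorem wk_ge (n : ℕ) : 1 ≤ wk (ev n '' Metric.closedBall 0 1) := by
  obtain ⟨z, -, hz⟩ := (WeakDual.isCompact_closedBall (0 : StrongDual ℝ (StrongDual ℝ CK))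
    1).ultrafilter_le_nhds ((hyperfilter ℕ).map fun k => bid (rad k)) (by
      rw [Ultrafilter.coe_map, le_principal_iff, mem_map]
      exact univ_mem' fun k => by
        simpa [bid] using (NormedSpace.double_dual_bound ℝ CK _).trans (rad_le k))
  have hU : (hyperfilter ℕ : Filter ℕ) ≤ atTop := Nat.cofinite_eq_atTop ▸ hyperfilter_le_cofinite
  refine le_iSup₂_of_le z (mem_closure_of_tendsto hz (Eventually.of_forall fun k =>
    ⟨rad k, ⟨J n (rad k), mem_closedBall_zero_iff.2 ((J_le n (rad_mem k)).trans (rad_le k)),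
      ev_J _ _⟩, rfl⟩)) (Metric.le_infEDist.2 ?_)
  rintro _ ⟨f, rfl⟩
  rw [edist_dist, dist_eq_norm, ← ENNReal.ofReal_one]
  refine ENNReal.ofReal_le_ofReal (le_of_forall_pos_le_add fun ε hε => ?_)
  obtain ⟨N, hN⟩ := (unif f hε fun _ => true).exists
  have h1 : ∀ (σ : K) (b : Bool), (∀ᶠ k in atTop, σ k = b) → |sg b - f σ| ≤
      ‖WeakDual.toStrongDual z - NormedSpace.inclusionInDoubleDual ℝ CK f‖ := fun σ b h => by
    have h2 : z (ContinuousMap.evalCLM ℝ σ) = sg b := tendsto_nhds_unique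
      (((WeakDual.eval_continuous _).tendsto z).comp hz) (tendsto_const_nhds.congr'
        (hU (h.mono fun k hk => by rw [← hk]; rfl)))
    rw [← h2]
    exact (WeakDual.toStrongDual z - NormedSpace.inclusionInDoubleDual ℝ CK f).unit_le_opNorm
      (ContinuousMap.evalCLM ℝ σ) (ContinuousLinearMap.opNorm_le_bound _ zero_le_one fun g => by
        simpa using g.norm_coe_le_norm σ)
  have h2 := abs_le.1 (h1 (fun _ => true) true (by simp))
  have h3 := abs_le.1 (h1 (fun k => decide (k < N)) false (by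
    filter_upwards [eventually_ge_atTop N] with k hk using by simpa using hk))
  have h4 := abs_lt.1 (hN (fun k => decide (k < N)) fun k hk => by simpa using hk)
  simp only [sg, if_true, Bool.false_eq_true, if_false] at h2 h3
  linarith

theorem main (C : NNReal) : ∃ T : XX →L[ℝ] CK, C * cc T < wk (T '' Metric.closedBall 0 1) := by
  obtain ⟨n, hn⟩ := exists_nat_gt (3 * C : ℝ)
  refine ⟨ev n, lt_of_lt_of_le (lt_of_le_of_lt (mul_le_mul_right (cc_le n) _) ?_) (wk_ge n)⟩
  rw [← ENNReal.ofReal_coe_nnreal, ← ENNReal.ofReal_mul C.coe_nonneg, ENNReal.ofReal_lt_one, al]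
  field_simp
  linarith [C.coe_nonneg]

end Pool.Agent.H.MP_2f19c2_an
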